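import Mathlib

/-! The nonattacking queens game on the toroidal board. -/

namespace Pool.Agent.Lib.MP_cf4457_co.TorusGame

/-- two squares of the toroidal board lie on a common row, column, diagonal or antidiagonal -/
def Att {n : ℕ} (p q : ZMod n × ZMod n) : Prop :=
  p.1 = q.1 ∨ p.2 = q.2 ∨ p.1 - p.2 = q.1 - q.2 ∨ p.1 + p.2 = q.1 + q.2

/-- the player to move, with queens on the squares of `S`, can force the last move -/
inductive Wins {n : ℕ} : Finset (ZMod n × ZMod n) → Prop
  | move (S : Finset (ZMod n × ZMod n)) (v : ZMod n × ZMod n) (hv : ∀ p ∈ S, ¬ Att p v)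
      (h : ∀ w, (∀ p ∈ insert v S, ¬ Att p w) → Wins (insert w (insert v S))) : Wins S

theorem mirror {n : ℕ} (s : ZMod n × ZMod n → ZMod n × ZMod n) (h1 : ∀ v, s (s v) = v)
    (h2 : ∀ p q, Att (s p) (s q) → Att p q) (S : Finset (ZMod n × ZMod n))
    (hS : ∀ p ∈ S, s p ∈ S) (v : ZMod n × ZMod n) (hv : ∀ p ∈ S, ¬ Att p v)
    (h3 : ¬ Att v (s v)) :
    (∀ p ∈ insert v S, ¬ Att p (s v)) ∧
      ∀ p ∈ insert (s v) (insert v S), s p ∈ insert (s v) (insert v S) := by
  refine ⟨fun p hp k => ?_, fun p hp => ?_⟩
  · rcases Finset.mem_insert.1 hp with rfl | hp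
    · exact h3 k
    · exact hv _ (hS p hp) (h2 _ _ (by rw [h1]; exact k))
  · simp only [Finset.mem_insert] at hp ⊢
    rcases hp with rfl | rfl | hp
    · exact Or.inr (Or.inl (h1 _))
    · exact Or.inl rfl
    · exact Or.inr (Or.inr (hS p hp))

theorem second {n : ℕ} (s : ZMod n × ZMod n → ZMod n × ZMod n) (h1 : ∀ v, s (s v) = v)
    (h2 : ∀ p q, Att (s p) (s q) → Att p q) (h3 : ∀ v, ¬ Att v (s v))
    (S : Finset (ZMod n × ZMod n)) (hW : Wins S) : ¬ ∀ p ∈ S, s p ∈ S := by
  induction hW with
  | move S v hv _ ih =>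
    intro hS
    obtain ⟨a, b⟩ := mirror s h1 h2 S hS v hv (h3 v)
    exact ih _ a b

theorem first {n : ℕ} [NeZero n] (s : ZMod n × ZMod n → ZMod n × ZMod n) (h1 : ∀ v, s (s v) = v)
    (h2 : ∀ p q, Att (s p) (s q) → Att p q) (o : ZMod n × ZMod n)
    (h3 : ∀ v, Att v (s v) → Att o v) (k : ℕ) : ∀ S : Finset (ZMod n × ZMod n),
    Sᶜ.card ≤ k → o ∈ S → (∀ p ∈ S, s p ∈ S) → ∀ v, (∀ p ∈ S, ¬ Att p v) →
      Wins (insert v S) := by
  induction k with
  | zero =>
    intro S hk _ _ v hv
    have : v ∈ Sᶜ := Finset.mem_compl.2 fun k => hv v k (Or.inl rfl)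
    have := Finset.card_pos.2 ⟨v, this⟩
    omega
  | succ k ih =>
    intro S hk ho hS v hv
    obtain ⟨a, b⟩ := mirror s h1 h2 S hS v hv fun e => hv o ho (h3 v e)
    refine Wins.move _ (s v) a fun w hw => ih _ ?_ (by simp [ho]) b w hw
    have : (insert (s v) (insert v S))ᶜ ⊂ Sᶜ := by
      refine Finset.ssubset_iff_of_subset (fun x hx => ?_) |>.2 ⟨v, ?_, by simp⟩
      · simp only [Finset.mem_compl, Finset.mem_insert, not_or] at hx ⊢
        exact hx.2.2
      · exact Finset.mem_compl.2 fun k => hv v k (Or.inl rfl)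
    have := Finset.card_lt_card this
    omega

theorem result (n : ℕ) (hn : 0 < n) (h : n % 4 ≠ 2) :
    Wins (∅ : Finset (ZMod n × ZMod n)) ↔ Odd n := by
  have : NeZero n := ⟨hn.ne'⟩
  constructor
  · intro hW
    by_contra ho
    obtain ⟨k, hk⟩ : ∃ k, n = 4 * k := ⟨n / 4, by
      have := Nat.not_odd_iff_even.1 ho
      obtain ⟨j, hj⟩ := this
      omega⟩
    have z : (4 * k : ZMod n) = 0 := by
      have := (ZMod.natCast_eq_zero_iff (4 * k) n).2 ⟨1, by omega⟩
      push_cast at this
      exact this
    have od : ∀ x : ZMod n, 2 * x ≠ 1 := fun x e => by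
      have := congrArg (ZMod.castHom (show 2 ∣ n from ⟨2 * k, by omega⟩) (ZMod 2)) e
      rw [map_mul, map_one, map_ofNat] at this
      revert this
      generalize ZMod.castHom _ (ZMod 2) x = y
      revert y
      decide
    have hf : (2 * k : ZMod n) ≠ 0 := fun e => by
      have e1 : ((2 * k : ℕ) : ZMod n) = 0 := by push_cast; exact e
      have := Nat.le_of_dvd (by omega) ((ZMod.natCast_eq_zero_iff _ _).1 e1)
      omega
    refine second (fun v => (1 - v.1, v.2 + 2 * (k : ZMod n))) (fun v => ?_) (fun p q e => ?_)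
      (fun v e => ?_) ∅ hW (by simp)
    · ext
      · simp
      · dsimp only
        linear_combination z
    · rcases e with e | e | e | e <;> dsimp only at e
      · exact Or.inl (by linear_combination -e)
      · exact Or.inr (Or.inl (by linear_combination e))
      · exact Or.inr (Or.inr (Or.inr (by linear_combination -e)))
      · exact Or.inr (Or.inr (Or.inl (by linear_combination -e)))
    · rcases e with e | e | e | e <;> dsimp only at e
      · exact od v.1 (by linear_combination e)
      · exact hf (by linear_combination -e)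
      · exact od (v.1 + k) (by linear_combination e)
      · exact od (v.1 - k) (by linear_combination e)
  · rintro ⟨k, hk⟩
    have z : (2 * k + 1 : ZMod n) = 0 := by
      have := (ZMod.natCast_eq_zero_iff (2 * k + 1) n).2 ⟨1, by omega⟩
      push_cast at this
      exact this
    refine Wins.move _ (0, 0) (by simp) fun w hw => first (fun v => (-v.1, -v.2)) (fun v => by simp)
      (fun p q e => ?_) (0, 0) (fun v e => ?_) _ _ le_rfl (by simp) (by simp) w hw
    · rcases e with e | e | e | e <;> dsimp only at e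
      · exact Or.inl (by linear_combination -e)
      · exact Or.inr (Or.inl (by linear_combination -e))
      · exact Or.inr (Or.inr (Or.inl (by linear_combination -e)))
      · exact Or.inr (Or.inr (Or.inr (by linear_combination -e)))
    · rcases e with e | e | e | e <;> dsimp only at e
      · exact Or.inl (by dsimp only; linear_combination (k : ZMod n) * e - v.1 * z)
      · exact Or.inr (Or.inl (by dsimp only; linear_combination (k : ZMod n) * e - v.2 * z))
      · exact Or.inr (Or.inr (Or.inl (by
          dsimp only; linear_combination (k : ZMod n) * e - (v.1 - v.2) * z)))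
      · exact Or.inr (Or.inr (Or.inr (by
          dsimp only; linear_combination (k : ZMod n) * e - (v.1 + v.2) * z)))

end Pool.Agent.Lib.MP_cf4457_co.TorusGame
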